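import Mathlib

/-!
# Lucas (NSW) sequences of prime index over a finite field (MP_d96822_nt)

The NSW number of odd index `n` is `((1 + √2) ^ n + (1 - √2) ^ n) / 2`. Here `1` and `2` are
replaced by polynomials `a` and `D` over a finite field `F`: if `2 a` and `a ^ 2 - D` are not both
constant, then `((a + √D) ^ p + (a - √D) ^ p) / (2 a) = ∑_j C(p, 2j) a ^ (p - 1 - 2 j) D ^ j` is a
product of two nonconstant polynomials for infinitely many primes `p`.
-/

set_option autoImplicit false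

open Polynomial

namespace Pool.Agent.Results.MP_d96822_nt.FunctionFields

/-- `∑_j C(n, 2j) a ^ (n - 1 - 2j) D ^ j`, that is
`((a + √D) ^ n + (a - √D) ^ n) / (2 a)` if `2 a` is invertible (`n` odd). -/
def lucas {R : Type} [CommRing R] (a D : R) (n : ℕ) : R :=
  ∑ j ∈ Finset.range (n / 2 + 1), (n.choose (2 * j) : R) * a ^ (n - 1 - 2 * j) * D ^ j

/-- `∑_j C(n, 2j) D ^ j`, that is `((1 + √D) ^ n + (1 - √D) ^ n) / 2` if `2` is invertible. -/
def nsw {R : Type} [CommRing R] (D : R) (n : ℕ) : R :=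
  ∑ j ∈ Finset.range (n / 2 + 1), (n.choose (2 * j) : R) * D ^ j

theorem sum_two {R : Type} [CommRing R] (f : ℕ → R) (N : ℕ) :
    ∑ i ∈ Finset.range (2 * N), f i = ∑ j ∈ Finset.range N, (f (2 * j) + f (2 * j + 1)) := by
  induction N with
  | zero => simp
  | succ N ih =>
    rw [Finset.sum_range_succ, ← ih, mul_add, mul_one, Finset.sum_range_succ,
      Finset.sum_range_succ]
    ring

theorem two_nsw {R : Type} [CommRing R] (s : R) (m : ℕ) :
    2 * nsw (s ^ 2) (2 * m + 1) = (1 + s) ^ (2 * m + 1) + (1 - s) ^ (2 * m + 1) := by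
  have h : ∀ x : R, (1 + x) ^ (2 * m + 1) =
      ∑ i ∈ Finset.range (2 * (m + 1)), x ^ i * ((2 * m + 1).choose i : R) := by
    intro x
    rw [add_comm, add_pow]
    refine Finset.sum_congr rfl fun i _ => ?_
    rw [one_pow, mul_one]
  rw [sub_eq_add_neg, h s, h (-s), ← Finset.sum_add_distrib, sum_two, nsw, Finset.mul_sum]
  have h2 : (2 * m + 1) / 2 = m := by omega
  rw [h2]
  refine Finset.sum_congr rfl fun j _ => ?_
  have e1 : (-s) ^ (2 * j) = s ^ (2 * j) := by rw [pow_mul, neg_sq, ← pow_mul]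
  have e2 : (-s) ^ (2 * j + 1) = - s ^ (2 * j + 1) := by rw [pow_succ, e1, pow_succ]; ring
  rw [e1, e2, ← pow_mul]
  ring

section

variable {F : Type} [Field F]

theorem nsw_coeff (m k : ℕ) : (nsw (X : F[X]) (2 * m + 1)).coeff k =
    if k ≤ m then ((2 * m + 1).choose (2 * k) : F) else 0 := by
  have h2 : (2 * m + 1) / 2 = m := by omega
  rw [nsw, h2, finsetSum_coeff]
  have : ∀ j, (((2 * m + 1).choose (2 * j) : F[X]) * X ^ j).coeff k =
      if k = j then ((2 * m + 1).choose (2 * j) : F) else 0 := by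
    intro j
    rw [← C_eq_natCast, coeff_C_mul, coeff_X_pow]
    split_ifs <;> simp
  simp only [this]
  rw [Finset.sum_ite_eq]
  simp

theorem nsw_natDegree {m : ℕ} (h1 : ((2 * m + 1 : ℕ) : F) ≠ 0) :
    (nsw (X : F[X]) (2 * m + 1)).natDegree = m := by
  refine le_antisymm (natDegree_le_iff_coeff_eq_zero.mpr fun k hk => ?_)
    (le_natDegree_of_ne_zero ?_)
  · rw [nsw_coeff, if_neg (by omega)]
  · rw [nsw_coeff, if_pos le_rfl]
    have : (2 * m + 1).choose (2 * m) = 2 * m + 1 := by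
      rw [Nat.choose_succ_self_right]
    rw [this]
    exact h1

theorem aeval_nsw {K : Type} [Field K] [Algebra F K] (t : K) (n : ℕ) :
    aeval t (nsw (X : F[X]) n) = nsw t n := by
  unfold nsw
  rw [map_sum]
  refine Finset.sum_congr rfl fun j _ => ?_
  simp

/-- The Frobenius fixes the roots. -/
theorem root_pow {K : Type} [Field K] (φ : K →+* K) {N : ℕ} (hφ : ∀ x, φ x = x ^ N)
    (h2 : (2 : K) ≠ 0) {m M : ℕ} (hN : N = (2 * m + 1) * (2 * M) + 1 ∨ N + 1 = (2 * m + 1) * (2 * M))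
    {s : K} (hs : (1 + s) ^ (2 * m + 1) + (1 - s) ^ (2 * m + 1) = 0) : φ (s ^ 2) = s ^ 2 := by
  have h0 : (1 + s) ^ (2 * m + 1) = - (1 - s) ^ (2 * m + 1) := eq_neg_of_add_eq_zero_left hs
  have h1 : (1 + s) ^ ((2 * m + 1) * (2 * M)) = (1 - s) ^ ((2 * m + 1) * (2 * M)) := by
    rw [pow_mul, pow_mul, h0, pow_mul, pow_mul, neg_sq]
  have hu : (1 + s) ^ N = 1 + φ s := by rw [← hφ, map_add, map_one]
  have hv : (1 - s) ^ N = 1 - φ s := by rw [← hφ, map_sub, map_one]
  rcases hN with hN | hN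
  · have e1 : (1 + s) ^ N = (1 + s) ^ ((2 * m + 1) * (2 * M)) * (1 + s) := by rw [hN, pow_succ]
    have e2 : (1 - s) ^ N = (1 - s) ^ ((2 * m + 1) * (2 * M)) * (1 - s) := by rw [hN, pow_succ]
    rw [hu, h1] at e1
    rw [hv] at e2
    set c := (1 - s) ^ ((2 * m + 1) * (2 * M)) with hc
    have hc1 : c = 1 := by
      have : (2 : K) * (c - 1) = 0 := by linear_combination -e1 - e2
      rcases mul_eq_zero.mp this with h | h
      · exact absurd h h2
      · exact sub_eq_zero.mp h
    have : φ s = s := by rw [hc1] at e1; linear_combination e1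
    rw [map_pow, this]
  · have e1 : (1 + s) ^ N * (1 + s) = (1 + s) ^ ((2 * m + 1) * (2 * M)) := by
      rw [← hN, pow_succ]
    have e2 : (1 - s) ^ N * (1 - s) = (1 - s) ^ ((2 * m + 1) * (2 * M)) := by
      rw [← hN, pow_succ]
    rw [hu, h1, ← e2, hv] at e1
    have : (2 : K) * (φ s + s) = 0 := by linear_combination e1
    have h3 : φ s = - s := by
      rcases mul_eq_zero.mp this with h | h
      · exact absurd h h2
      · exact eq_neg_of_add_eq_zero_left h
    rw [map_pow, h3, neg_sq]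

theorem not_irreducible [Finite F] {m k M : ℕ} (h2 : (2 : F) ≠ 0)
    (h1 : ((2 * m + 1 : ℕ) : F) ≠ 0) (hk : 0 < k) (hm : m = 2 * k)
    (hN : Nat.card F ^ k = (2 * m + 1) * (2 * M) + 1 ∨
      Nat.card F ^ k + 1 = (2 * m + 1) * (2 * M)) :
    ¬ Irreducible (nsw (X : F[X]) (2 * m + 1)) := by
  intro hi
  have hdeg := nsw_natDegree h1
  obtain ⟨t, ht⟩ := IsAlgClosed.exists_aeval_eq_zero (AlgebraicClosure F)
    (nsw (X : F[X]) (2 * m + 1)) (by
      intro h
      have h3 : (nsw (X : F[X]) (2 * m + 1)).natDegree = 0 := natDegree_eq_of_degree_eq_some h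
      rw [hdeg] at h3
      omega)
  obtain ⟨s, hs⟩ := IsAlgClosed.exists_pow_nat_eq t (n := 2) (by norm_num)
  rw [aeval_nsw] at ht
  have h2K : (2 : AlgebraicClosure F) ≠ 0 := by
    intro h
    apply h2
    have : algebraMap F (AlgebraicClosure F) 2 = 0 := by rw [map_ofNat]; exact h
    exact (map_eq_zero _).mp this
  have hs0 : (1 + s) ^ (2 * m + 1) + (1 - s) ^ (2 * m + 1) = 0 := by
    rw [← two_nsw, hs, ht, mul_zero]
  have := Fintype.ofFinite F
  have hfr : ∀ x : AlgebraicClosure F,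
      ((FiniteField.frobeniusAlgHom F (AlgebraicClosure F)) ^ k) x = x ^ (Nat.card F ^ k) := by
    intro x
    rw [Nat.card_eq_fintype_card, AlgHom.coe_pow, FiniteField.coe_frobeniusAlgHom, pow_iterate]
  have hfix := root_pow (K := AlgebraicClosure F)
    (((FiniteField.frobeniusAlgHom F (AlgebraicClosure F)) ^ k :
      AlgebraicClosure F →ₐ[F] AlgebraicClosure F) : AlgebraicClosure F →+* AlgebraicClosure F)
    (N := Nat.card F ^ k) hfr h2K hN hs0
  have hfix2 : t ^ (Nat.card F ^ k) = t := by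
    rw [← hfr, ← hs]
    exact hfix
  have hdvd : nsw (X : F[X]) (2 * m + 1) ∣ X ^ (Nat.card F) ^ k - X := by
    rw [← hi.dvd_iff_aeval_eq_zero (b := t) (by rw [aeval_nsw]; exact ht)]
    rw [map_sub, map_pow, aeval_X, hfix2, sub_self]
  have := hi.natDegree_dvd_of_dvd_X_pow_card_pow_sub_X hdvd
  rw [hdeg, hm] at this
  have := Nat.le_of_dvd hk this
  omega

/-- The index condition: `q` is a square modulo `p`. -/
theorem card_pow {p l e : ℕ} (hp : p.Prime) (hl : l.Prime) (hl2 : l ≠ 2) (hpl : p ≡ 1 [MOD 4 * l])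
    {m k : ℕ} (hm : p = 2 * m + 1) (hk : m = 2 * k) :
    ∃ M, (l ^ e) ^ k = (2 * m + 1) * (2 * M) + 1 ∨ (l ^ e) ^ k + 1 = (2 * m + 1) * (2 * M) := by
  have : Fact p.Prime := ⟨hp⟩
  have : Fact l.Prime := ⟨hl⟩
  have hpos : 1 ≤ (l ^ e) ^ k := Nat.one_le_iff_ne_zero.mpr
    (pow_ne_zero _ (pow_ne_zero _ hl.ne_zero))
  have hp4 : p % 4 = 1 := by
    have : p ≡ 1 [MOD 4] := hpl.of_mul_right l
    exact this
  have hpl1 : p ≡ 1 [MOD l] := hpl.of_mul_left 4
  have hsq : IsSquare ((l : ℕ) : ZMod p) := by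
    rw [ZMod.exists_sq_eq_prime_iff_of_mod_four_eq_one hp4 hl2]
    have : ((p : ℕ) : ZMod l) = ((1 : ℕ) : ZMod l) := (ZMod.natCast_eq_natCast_iff _ _ _).mpr hpl1
    rw [this, Nat.cast_one]
    exact IsSquare.one
  obtain ⟨r, hr⟩ := hsq
  have hpne : p ≠ l := by
    intro h
    rw [h] at hpl1
    have : (l : ℕ) % l = 1 % l := hpl1
    rw [Nat.mod_self, Nat.mod_eq_of_lt hl.one_lt] at this
    omega
  have hr0 : r ≠ 0 := by
    intro h
    rw [h, mul_zero, ZMod.natCast_eq_zero_iff] at hr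
    exact hpne ((Nat.prime_dvd_prime_iff_eq hp hl).mp hr)
  have hre : r ^ e ≠ 0 := pow_ne_zero _ hr0
  have hpm : p / 2 = 2 * k := by omega
  have hq : (((l ^ e) ^ k : ℕ) : ZMod p) = (r ^ e) ^ (p / 2) := by
    push_cast
    rw [hr, hpm, ← pow_mul, ← pow_mul, ← pow_two, ← pow_mul]
    congr 1
    ring
  have hodd : Odd ((l ^ e) ^ k) := ((hl.odd_of_ne_two hl2).pow).pow
  have hpodd : Odd p := hp.odd_of_ne_two (by rintro rfl; omega)
  rw [← hm]
  rcases ZMod.pow_div_two_eq_neg_one_or_one p hre with h | h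
  · rw [h] at hq
    have h1 : (((l ^ e) ^ k - 1 : ℕ) : ZMod p) = 0 := by
      rw [Nat.cast_sub hpos, hq, Nat.cast_one, sub_self]
    rw [ZMod.natCast_eq_zero_iff] at h1
    have h2 : 2 ∣ (l ^ e) ^ k - 1 := by
      obtain ⟨c, hc⟩ := hodd
      exact ⟨c, by omega⟩
    have h3 : p * 2 ∣ (l ^ e) ^ k - 1 :=
      Nat.Coprime.mul_dvd_of_dvd_of_dvd (Nat.Coprime.symm (Nat.coprime_two_left.mpr hpodd)) h1 h2
    obtain ⟨c, hc⟩ := h3
    refine ⟨c, Or.inl ?_⟩
    rw [← mul_assoc, ← hc]
    omega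
  · rw [h] at hq
    have h1 : (((l ^ e) ^ k + 1 : ℕ) : ZMod p) = 0 := by
      rw [Nat.cast_add, hq, Nat.cast_one, neg_add_cancel]
    rw [ZMod.natCast_eq_zero_iff] at h1
    have h2 : 2 ∣ (l ^ e) ^ k + 1 := by
      obtain ⟨c, hc⟩ := hodd
      exact ⟨c + 1, by omega⟩
    have h3 : p * 2 ∣ (l ^ e) ^ k + 1 :=
      Nat.Coprime.mul_dvd_of_dvd_of_dvd (Nat.Coprime.symm (Nat.coprime_two_left.mpr hpodd)) h1 h2
    obtain ⟨c, hc⟩ := h3
    refine ⟨c, Or.inr ?_⟩
    rw [← mul_assoc, ← hc]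

theorem lucas_char_two [CharP F 2] (a D : F[X]) (m : ℕ) :
    lucas a D (2 * m + 1) = (a ^ 2 - D) ^ m := by
  have h2 : (2 * m + 1) / 2 = m := by omega
  have hs : a ^ 2 - D = D + a ^ 2 := by
    rw [CharTwo.sub_eq_add, add_comm]
  rw [lucas, h2, hs, add_pow]
  refine Finset.sum_congr rfl fun j hj => ?_
  have hj' : j ≤ m := Nat.lt_succ_iff.mp (Finset.mem_range.mp hj)
  have h := Choose.choose_modEq_choose_mod_mul_choose_div_nat (p := 2) (n := 2 * m + 1)
    (k := 2 * j)
  have e1 : (2 * m + 1) % 2 = 1 := by omega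
  have e2 : (2 * j) % 2 = 0 := by omega
  have e3 : (2 * j) / 2 = j := by omega
  rw [e1, e2, h2, e3, Nat.choose_zero_right, one_mul] at h
  have h4 : (((2 * m + 1).choose (2 * j) : ℕ) : F[X]) = ((m.choose j : ℕ) : F[X]) :=
    (CharP.natCast_eq_natCast F[X] 2).mpr h
  have e4 : 2 * m + 1 - 1 - 2 * j = 2 * (m - j) := by omega
  rw [h4, e4, pow_mul]
  ring

/-- The homogeneous form of `f`. -/
noncomputable def hom (f x y : F[X]) : F[X] := ((f.map C).scaleRoots x).eval y

theorem hom_mul (f g x y : F[X]) : hom (f * g) x y = hom f x y * hom g x y := by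
  rw [hom, Polynomial.map_mul, mul_scaleRoots_of_noZeroDivisors, eval_mul]
  rfl

theorem hom_eq (f x y : F[X]) : hom f x y = ∑ j ∈ Finset.range (f.natDegree + 1),
    C (f.coeff j) * x ^ (f.natDegree - j) * y ^ j := by
  rw [hom, eval_eq_sum_range, natDegree_scaleRoots, natDegree_map_eq_of_injective C_injective]
  refine Finset.sum_congr rfl fun j _ => ?_
  rw [coeff_scaleRoots, coeff_map, natDegree_map_eq_of_injective C_injective]

theorem hom_natDegree {f x y : F[X]} (hf : 0 < f.natDegree) (hr : ∀ c : F, f.eval c ≠ 0)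
    (hxy : 0 < x.natDegree ∨ 0 < y.natDegree) : 0 < (hom f x y).natDegree := by
  set n := f.natDegree with hn
  set M := max x.natDegree y.natDegree with hM
  have hMpos : 0 < M := by
    rcases hxy with h | h
    · exact lt_of_lt_of_le h (le_max_left _ _)
    · exact lt_of_lt_of_le h (le_max_right _ _)
  have hx : x.natDegree ≤ M := le_max_left _ _
  have hy : y.natDegree ≤ M := le_max_right _ _
  have hc : (hom f x y).coeff (n * M) =
      ∑ j ∈ Finset.range (n + 1), f.coeff j * (x.coeff M) ^ (n - j) * (y.coeff M) ^ j := by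
    rw [hom_eq, finsetSum_coeff]
    refine Finset.sum_congr rfl fun j hj => ?_
    have hj' : j ≤ n := Nat.lt_succ_iff.mp (Finset.mem_range.mp hj)
    have e : n * M = (n - j) * M + j * M := by rw [← add_mul, Nat.sub_add_cancel hj']
    rw [mul_assoc, coeff_C_mul, e, coeff_mul_add_eq_of_natDegree_le, coeff_pow_of_natDegree_le hx,
      coeff_pow_of_natDegree_le hy, mul_assoc]
    · exact (natDegree_pow_le).trans (Nat.mul_le_mul_left _ hx)
    · exact (natDegree_pow_le).trans (Nat.mul_le_mul_left _ hy)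
  have hne : x.coeff M ≠ 0 ∨ y.coeff M ≠ 0 := by
    rcases le_total x.natDegree y.natDegree with h | h
    · right
      have : M = y.natDegree := max_eq_right h
      rw [this]
      intro h0
      have hy0 : y = 0 := leadingCoeff_eq_zero.mp h0
      rw [this, hy0, natDegree_zero] at hMpos
      exact lt_irrefl _ hMpos
    · left
      have : M = x.natDegree := max_eq_left h
      rw [this]
      intro h0
      have hx0 : x = 0 := leadingCoeff_eq_zero.mp h0
      rw [this, hx0, natDegree_zero] at hMpos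
      exact lt_irrefl _ hMpos
  have hcne : (hom f x y).coeff (n * M) ≠ 0 := by
    rw [hc]
    by_cases hX : x.coeff M = 0
    · have hY := hne.resolve_left (by simp [hX])
      rw [hX, Finset.sum_range_succ, Finset.sum_eq_zero, zero_add, Nat.sub_self, pow_zero, mul_one]
      · refine mul_ne_zero ?_ (pow_ne_zero _ hY)
        have : f ≠ 0 := by
          rintro rfl
          rw [hn, natDegree_zero] at hf
          exact lt_irrefl _ hf
        exact leadingCoeff_ne_zero.mpr this
      · intro j hj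
        have hj' := Finset.mem_range.mp hj
        rw [zero_pow (by omega), mul_zero, zero_mul]
    · have : ∑ j ∈ Finset.range (n + 1), f.coeff j * (x.coeff M) ^ (n - j) * (y.coeff M) ^ j =
          (x.coeff M) ^ n * f.eval (y.coeff M / x.coeff M) := by
        rw [eval_eq_sum_range, Finset.mul_sum]
        refine Finset.sum_congr rfl fun j hj => ?_
        have hj' : j ≤ n := Nat.lt_succ_iff.mp (Finset.mem_range.mp hj)
        have e : (x.coeff M) ^ n = (x.coeff M) ^ (n - j) * (x.coeff M) ^ j := by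
          rw [← pow_add, Nat.sub_add_cancel hj']
        rw [e, div_pow]
        field_simp
      rw [this]
      exact mul_ne_zero (pow_ne_zero _ hX) (hr _)
  exact lt_of_lt_of_le (Nat.mul_pos hf hMpos) (le_natDegree_of_ne_zero hcne)

theorem no_root [Finite F] {m : ℕ} (h2 : (2 : F) ≠ 0)
    (hcop : Nat.Coprime (2 * m + 1) (Nat.card F ^ 2 - 1)) (c : F) :
    (nsw (X : F[X]) (2 * m + 1)).eval c ≠ 0 := by
  intro hc
  obtain ⟨s, hs⟩ := IsAlgClosed.exists_pow_nat_eq (algebraMap F (AlgebraicClosure F) c) (n := 2)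
    (by norm_num)
  have h2K : (2 : AlgebraicClosure F) ≠ 0 := by
    intro h
    apply h2
    have : algebraMap F (AlgebraicClosure F) 2 = 0 := by rw [map_ofNat]; exact h
    exact (map_eq_zero _).mp this
  have hs0 : (1 + s) ^ (2 * m + 1) + (1 - s) ^ (2 * m + 1) = 0 := by
    rw [← two_nsw, hs, ← aeval_nsw (F := F), aeval_algebraMap_apply]
    rw [coe_aeval_eq_eval, hc, map_zero, mul_zero]
  have := Fintype.ofFinite F
  set φ := FiniteField.frobeniusAlgHom F (AlgebraicClosure F) with hφ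
  have hfr : ∀ x : AlgebraicClosure F, φ x = x ^ Nat.card F := by
    intro x
    rw [Nat.card_eq_fintype_card, hφ, FiniteField.coe_frobeniusAlgHom]
  have hss : φ s ^ 2 = s ^ 2 := by rw [← map_pow, hs]; exact φ.commutes c
  have hs2 : φ (φ s) = s := by
    rcases sq_eq_sq_iff_eq_or_eq_neg.mp hss with h | h
    · rw [h, h]
    · rw [h, map_neg, h, neg_neg]
  have hpow : ∀ x : AlgebraicClosure F, φ (φ x) = x ^ (Nat.card F ^ 2) := by
    intro x
    rw [hfr, hfr, ← pow_mul, pow_two]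
  have hv : 1 - s ≠ 0 := by
    intro h
    rw [h, zero_pow (by omega), add_zero] at hs0
    have h3 := pow_eq_zero_iff (by omega : 2 * m + 1 ≠ 0) |>.mp hs0
    exact h2K (by linear_combination h + h3)
  have hw1 : (-(1 + s) / (1 - s)) ^ (2 * m + 1) = 1 := by
    rw [div_pow, Odd.neg_pow ⟨m, rfl⟩, div_eq_one_iff_eq (pow_ne_zero _ hv)]
    linear_combination -hs0
  have hw0 : (-(1 + s) / (1 - s)) ≠ 0 := by
    intro h
    rw [h, zero_pow (by omega)] at hw1
    exact zero_ne_one hw1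
  have hw2 : (-(1 + s) / (1 - s)) ^ (Nat.card F ^ 2) = -(1 + s) / (1 - s) := by
    rw [← hpow]
    simp only [map_div₀, map_neg, map_add, map_sub, map_one, hs2]
  have hw3 : (-(1 + s) / (1 - s)) ^ (Nat.card F ^ 2 - 1) = 1 := by
    have hq : 1 ≤ Nat.card F ^ 2 := Nat.one_le_iff_ne_zero.mpr (pow_ne_zero _ Nat.card_pos.ne')
    have : (-(1 + s) / (1 - s)) ^ (Nat.card F ^ 2 - 1) * (-(1 + s) / (1 - s)) =
        1 * (-(1 + s) / (1 - s)) := by
      rw [← pow_succ, Nat.sub_add_cancel hq, hw2, one_mul]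
    exact mul_right_cancel₀ hw0 this
  have hw : (-(1 + s) / (1 - s)) = 1 := by
    have := pow_gcd_eq_one.mpr ⟨hw1, hw3⟩
    rw [Nat.coprime_iff_gcd_eq_one.mp hcop, pow_one] at this
    exact this
  rw [div_eq_one_iff_eq hv] at hw
  exact h2K (by linear_combination -hw)

theorem lucas_eq_hom {m : ℕ} (h1 : ((2 * m + 1 : ℕ) : F) ≠ 0) (a D : F[X]) :
    lucas a D (2 * m + 1) = hom (nsw (X : F[X]) (2 * m + 1)) (a ^ 2) D := by
  have h2 : (2 * m + 1) / 2 = m := by omega
  rw [hom_eq, nsw_natDegree h1, lucas, h2]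
  refine Finset.sum_congr rfl fun j hj => ?_
  have hj' : j ≤ m := Nat.lt_succ_iff.mp (Finset.mem_range.mp hj)
  have e4 : 2 * m + 1 - 1 - 2 * j = 2 * (m - j) := by omega
  rw [nsw_coeff, if_pos hj', e4, pow_mul, C_eq_natCast]

theorem reducible [Finite F] (l : ℕ) [CharP F l] (a D : F[X])
    (h : 0 < (2 * a).natDegree ∨ 0 < (a ^ 2 - D).natDegree) {p : ℕ} (hp : p.Prime)
    (hpl : p ≡ 1 [MOD 4 * l]) (hpF : Nat.card F ^ 2 < p) :
    ∃ b c : F[X], lucas a D p = b * c ∧ 0 < b.natDegree ∧ 0 < c.natDegree := by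
  have := Fintype.ofFinite F
  have hcard : 2 ≤ Nat.card F := Finite.one_lt_card
  have hcard2 : 4 ≤ Nat.card F ^ 2 := by nlinarith
  obtain ⟨m, hm⟩ : ∃ m, p = 2 * m + 1 := hp.odd_of_ne_two (by omega)
  by_cases hl2 : l = 2
  · subst hl2
    have h2a : (2 * a : F[X]) = 0 := by rw [CharTwo.two_eq_zero, zero_mul]
    have h' : 0 < (a ^ 2 - D).natDegree := by
      rcases h with h | h
      · rw [h2a, natDegree_zero] at h
        exact absurd h (lt_irrefl _)
      · exact h
    refine ⟨a ^ 2 - D, (a ^ 2 - D) ^ (m - 1), ?_, h', ?_⟩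
    · rw [hm, lucas_char_two, ← pow_succ']
      congr 1
      omega
    · rw [natDegree_pow]
      exact Nat.mul_pos (by omega) h'
  · have hl : l.Prime := CharP.char_is_prime F l
    have hp4 : p % 4 = 1 := by
      have : p ≡ 1 [MOD 4] := hpl.of_mul_right l
      exact this
    obtain ⟨k, hk⟩ : ∃ k, m = 2 * k := ⟨m / 2, by omega⟩
    obtain ⟨e, -, he⟩ := FiniteField.card F l
    rw [← Nat.card_eq_fintype_card] at he
    obtain ⟨M, hM⟩ := card_pow (e := (e : ℕ)) hp hl hl2 hpl hm hk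
    rw [← he] at hM
    have h2F : (2 : F) ≠ 0 := by
      intro h
      have h' : ((2 : ℕ) : F) = 0 := by exact_mod_cast h
      rw [CharP.cast_eq_zero_iff F l] at h'
      exact hl2 ((Nat.prime_dvd_prime_iff_eq hl Nat.prime_two).mp h')
    have h1 : ((2 * m + 1 : ℕ) : F) ≠ 0 := by
      rw [← hm]
      intro h
      rw [CharP.cast_eq_zero_iff F l] at h
      have hpl1 : p ≡ 1 [MOD l] := hpl.of_mul_left 4
      have h3 : p % l = 1 % l := hpl1
      rw [Nat.mod_eq_zero_of_dvd h, Nat.mod_eq_of_lt hl.one_lt] at h3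
      omega
    have hcop : Nat.Coprime (2 * m + 1) (Nat.card F ^ 2 - 1) := by
      rw [← hm, Nat.Prime.coprime_iff_not_dvd hp]
      intro hd
      have := Nat.le_of_dvd (by omega) hd
      omega
    have hroot := no_root h2F hcop
    have hirr := not_irreducible h2F h1 (by omega : 0 < k) hk hM
    have hdeg := nsw_natDegree h1
    have hne : nsw (X : F[X]) (2 * m + 1) ≠ 0 := by
      intro h
      rw [h, natDegree_zero] at hdeg
      omega
    have hnu : ¬ IsUnit (nsw (X : F[X]) (2 * m + 1)) := by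
      intro h
      have := natDegree_eq_zero_of_isUnit h
      omega
    rw [irreducible_iff] at hirr
    push Not at hirr
    obtain ⟨b, c, hbc, hb, hc⟩ := hirr hnu
    have hbc0 : b ≠ 0 ∧ c ≠ 0 := by
      rw [hbc] at hne
      exact ⟨left_ne_zero_of_mul hne, right_ne_zero_of_mul hne⟩
    have hbd : 0 < b.natDegree := by
      rw [Nat.pos_iff_ne_zero]
      intro h
      exact hb (isUnit_iff_degree_eq_zero.mpr (by rw [degree_eq_natDegree hbc0.1, h]; rfl))
    have hcd : 0 < c.natDegree := by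
      rw [Nat.pos_iff_ne_zero]
      intro h
      exact hc (isUnit_iff_degree_eq_zero.mpr (by rw [degree_eq_natDegree hbc0.2, h]; rfl))
    have hbr : ∀ t : F, b.eval t ≠ 0 := fun t ht => hroot t (by rw [hbc, eval_mul, ht, zero_mul])
    have hcr : ∀ t : F, c.eval t ≠ 0 := fun t ht => hroot t (by rw [hbc, eval_mul, ht, mul_zero])
    have hxy : 0 < (a ^ 2).natDegree ∨ 0 < D.natDegree := by
      by_contra hcon
      push Not at hcon
      obtain ⟨ha, hD⟩ := hcon
      rw [natDegree_pow] at ha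
      have ha0 : a.natDegree = 0 := by omega
      rcases h with h | h
      · have : (2 * a).natDegree ≤ a.natDegree := by
          have h3 := natDegree_C_mul_le (2 : F) a
          rwa [C_ofNat] at h3
        omega
      · have := natDegree_sub_le (a ^ 2) D
        rw [natDegree_pow, ha0] at this
        omega
    refine ⟨hom b (a ^ 2) D, hom c (a ^ 2) D, ?_, hom_natDegree hbd hbr hxy,
      hom_natDegree hcd hcr hxy⟩
    rw [hm, lucas_eq_hom h1, hbc, hom_mul]

end

/-- **Main result.** Let `F` be a finite field of characteristic `l`, and let `a, D` be polynomials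
over `F` such that `2 a` and `a ^ 2 - D` are not both constant. Then
`∑_j C(p, 2j) a ^ (p - 1 - 2j) D ^ j` is a product of two nonconstant polynomials for every prime
`p ≡ 1 (mod 4l)` with `p > |F| ^ 2`; in particular for infinitely many primes `p`. -/
theorem result (F : Type) [Field F] [Finite F] (l : ℕ) [CharP F l] (a D : F[X])
    (h : 0 < (2 * a).natDegree ∨ 0 < (a ^ 2 - D).natDegree) :
    (∀ p : ℕ, p.Prime → p ≡ 1 [MOD 4 * l] → Nat.card F ^ 2 < p →
      ∃ b c : F[X], lucas a D p = b * c ∧ 0 < b.natDegree ∧ 0 < c.natDegree) ∧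
    {p : ℕ | p.Prime ∧ ∃ b c : F[X], lucas a D p = b * c ∧ 0 < b.natDegree ∧
      0 < c.natDegree}.Infinite := by
  have key : ∀ p : ℕ, p.Prime → p ≡ 1 [MOD 4 * l] → Nat.card F ^ 2 < p →
      ∃ b c : F[X], lucas a D p = b * c ∧ 0 < b.natDegree ∧ 0 < c.natDegree :=
    fun p hp hpl hpF => reducible l a D h hp hpl hpF
  refine ⟨key, ?_⟩
  have hl : l.Prime := CharP.char_is_prime F l
  have h4l : 4 * l ≠ 0 := by
    have := hl.pos
    omega
  rw [Set.infinite_iff_exists_gt]
  intro n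
  obtain ⟨p, hp, hnp, hp1⟩ := Nat.exists_prime_gt_modEq_one (k := 4 * l) (n + Nat.card F ^ 2) h4l
  exact ⟨p, ⟨hp, key p hp hp1 (by omega)⟩, by omega⟩

end Pool.Agent.Results.MP_d96822_nt.FunctionFields
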